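import Pool.Agent.Helper7.KS2.Defs
import Pool.Agent.Helper41.Girth4.Prob

/-!
# Packet B2 of MP_c4bd07_co: concentration of the number of saving colours
-/

set_option autoImplicit false
open Classical

namespace Pool.Agent.Helper77.KS2

open Pool.Agent.Helper41.Girth4
open Pool.Agent.Helper7.KS2

/-! ## Analysis -/

theorem exists_M0 {a b : ℝ} (ha : 0 < a) (hb : 0 < b) : ∃ M₀ : ℕ, 1 ≤ M₀ ∧ ∀ M : ℕ, M₀ ≤ M →
    3 * (M : ℝ) * Real.exp (-(a * M)) + Real.exp (-(b * M)) ≤ 1 / (4 * (3 * (M : ℝ) + 1) ^ 4) := by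
  set d : ℝ := min a b with hd
  have hdpos : 0 < d := lt_min ha hb
  have h1 := Real.tendsto_pow_mul_exp_neg_atTop_nhds_zero 5
  have h2 : Filter.Tendsto (fun M : ℕ => d * (M : ℝ)) Filter.atTop Filter.atTop :=
    Filter.Tendsto.const_mul_atTop hdpos tendsto_natCast_atTop_atTop
  have h3 := (h1.comp h2).eventually (gt_mem_nhds (show (0 : ℝ) < d ^ 5 / 4096 by positivity))
  obtain ⟨M₁, hM₁⟩ := Filter.eventually_atTop.1 h3
  refine ⟨max M₁ 1, le_max_right _ _, fun M hM => ?_⟩
  have h4 := hM₁ M ((le_max_left _ _).trans hM)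
  have hM1 : (1 : ℝ) ≤ M := by exact_mod_cast (le_max_right _ _).trans hM
  simp only [Function.comp] at h4
  have h5 : (M : ℝ) ^ 5 * Real.exp (-(d * M)) < 1 / 4096 := by
    have : d ^ 5 * ((M : ℝ) ^ 5 * Real.exp (-(d * M))) < d ^ 5 * (1 / 4096) := by
      calc d ^ 5 * ((M : ℝ) ^ 5 * Real.exp (-(d * M)))
          = (d * M) ^ 5 * Real.exp (-(d * M)) := by ring
        _ < d ^ 5 / 4096 := h4
        _ = d ^ 5 * (1 / 4096) := by ring
    exact lt_of_mul_lt_mul_left this (by positivity)
  have hE : 0 < Real.exp (-(d * M)) := Real.exp_pos _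
  have h6 : Real.exp (-(a * M)) ≤ Real.exp (-(d * M)) := by
    apply Real.exp_le_exp.2
    have : d * M ≤ a * M := mul_le_mul_of_nonneg_right (min_le_left _ _) (by positivity)
    linarith
  have h7 : Real.exp (-(b * M)) ≤ Real.exp (-(d * M)) := by
    apply Real.exp_le_exp.2
    have : d * M ≤ b * M := mul_le_mul_of_nonneg_right (min_le_right _ _) (by positivity)
    linarith
  have h8 : 3 * (M : ℝ) * Real.exp (-(a * M)) + Real.exp (-(b * M))
      ≤ (3 * (M : ℝ) + 1) * Real.exp (-(d * M)) := by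
    have : 3 * (M : ℝ) * Real.exp (-(a * M)) ≤ 3 * (M : ℝ) * Real.exp (-(d * M)) :=
      mul_le_mul_of_nonneg_left h6 (by positivity)
    nlinarith
  refine h8.trans ?_
  rw [le_div_iff₀ (by positivity)]
  have h9 : (3 * (M : ℝ) + 1) ^ 5 ≤ (4 * (M : ℝ)) ^ 5 :=
    pow_le_pow_left₀ (by positivity) (by linarith) 5
  calc (3 * (M : ℝ) + 1) * Real.exp (-(d * M)) * (4 * (3 * (M : ℝ) + 1) ^ 4)
      = 4 * Real.exp (-(d * M)) * (3 * (M : ℝ) + 1) ^ 5 := by ring
    _ ≤ 4 * Real.exp (-(d * M)) * (4 * (M : ℝ)) ^ 5 := by gcongr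
    _ = 4096 * ((M : ℝ) ^ 5 * Real.exp (-(d * M))) := by ring
    _ ≤ 4096 * (1 / 4096) := by gcongr
    _ = 1 := by norm_num

/-! ## Probability of a coordinate event -/

theorem Pr_coord {V X : Type} [Fintype V] [Finite X] [Nonempty X] (z : V) (B : X → Prop) :
    Pr (fun ω : V → X => B (ω z)) = Pr B := by
  have := Fintype.ofFinite X
  have h1 : Pr (fun ω : V → X => B (ω z))
      = Pr (fun ω : V → X => ∀ i, (if i = z then B else fun _ => True) (ω i)) := by
    apply Pr_congr
    intro ω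
    constructor
    · intro h i
      by_cases hi : i = z
      · subst hi; simpa using h
      · simp [hi]
    · intro h
      simpa using h z
  rw [h1, Pr_pi, Finset.prod_eq_single z]
  · simp
  · intro i _ hi
    simp [hi, Pr_true]
  · simp

theorem Pr_zero {c Q : ℕ} (hc : 0 < c) :
    Pr (fun x : Fin c × Fin (Q + 1) => x.2 = 0) = 1 / ((Q : ℝ) + 1) := by
  have : NeZero c := ⟨hc.ne'⟩
  have h := Pr_snd (α := Fin c) (fun y : Fin (Q + 1) => y = 0)
  rw [h]
  unfold Pr
  have h1 : Nat.card {y : Fin (Q + 1) // y = 0} = 1 := Nat.card_unique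
  rw [h1]
  simp

/-! ## Merging -/

/-- the exchange of the coordinates in the neighbourhood of `v` -/
noncomputable def exch {V X : Type} (G : SimpleGraph V) (v : V) :
    ((V → X) × (V → X)) ≃ ((V → X) × (V → X)) where
  toFun z := (mg G v z.2 z.1, mg G v z.1 z.2)
  invFun z := (mg G v z.2 z.1, mg G v z.1 z.2)
  left_inv := by
    rintro ⟨x, y⟩
    apply Prod.ext
    · funext t
      simp only [mg]
      split_ifs <;> rfl
    · funext t
      simp only [mg]
      split_ifs <;> rfl
  right_inv := by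
    rintro ⟨x, y⟩
    apply Prod.ext
    · funext t
      simp only [mg]
      split_ifs <;> rfl
    · funext t
      simp only [mg]
      split_ifs <;> rfl

theorem Pr_merge {V X : Type} [Fintype V] [Finite X] [Nonempty X] (G : SimpleGraph V) (v : V)
    (A : (V → X) → Prop) :
    Pr A = Pr (fun z : (V → X) × (V → X) => A (mg G v z.2 z.1)) := by
  have h := Pr_equiv (exch (X := X) G v) (fun z => A z.1)
  rw [Pr_fst] at h
  rw [← h]
  rfl

/-! ## Lipschitz properties -/

theorem col_update {V : Type} {c Q : ℕ} (L : V → Finset (Fin c)) (ω : V → Fin c × Fin (Q + 1))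
    (i : V) (l : Fin c × Fin (Q + 1)) (α : Fin c) (h1 : α ≠ l.1) (h2 : α ≠ (ω i).1) (z : V) :
    col L (Function.update ω i l) z α ↔ col L ω z α := by
  unfold col
  by_cases hz : z = i
  · subst hz
    rw [Function.update_self]
    constructor
    · rintro ⟨h, _⟩
      exact absurd (by rw [h]) h1
    · rintro ⟨h, _⟩
      exact absurd (by rw [h]) h2
  · rw [Function.update_of_ne hz]

theorem sav_update {V : Type} {c Q : ℕ} (G : SimpleGraph V) (L : V → Finset (Fin c))
    (ω : V → Fin c × Fin (Q + 1)) (v i : V) (l : Fin c × Fin (Q + 1)) (α : Fin c)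
    (h1 : α ≠ l.1) (h2 : α ≠ (ω i).1) :
    sav G L (Function.update ω i l) v α ↔ sav G L ω v α := by
  unfold sav
  simp only [col_update L ω i l α h1 h2]

theorem card_le_of_pair {β : Type} [Fintype β] (A B : β → Prop) (x y : β)
    (h : ∀ α, α ≠ x → α ≠ y → (A α ↔ B α)) :
    (Finset.univ.filter A).card ≤ (Finset.univ.filter B).card + 2 := by
  have h1 : Finset.univ.filter A ⊆ Finset.univ.filter B ∪ {x, y} := by
    intro α hα
    simp only [Finset.mem_filter, Finset.mem_univ, true_and, Finset.mem_union, Finset.mem_insert,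
      Finset.mem_singleton] at hα ⊢
    by_cases hx : α = x
    · exact Or.inr (Or.inl hx)
    by_cases hy : α = y
    · exact Or.inr (Or.inr hy)
    exact Or.inl ((h α hx hy).1 hα)
  calc (Finset.univ.filter A).card ≤ (Finset.univ.filter B ∪ {x, y}).card := Finset.card_le_card h1
    _ ≤ (Finset.univ.filter B).card + ({x, y} : Finset β).card := Finset.card_union_le _ _
    _ ≤ (Finset.univ.filter B).card + 2 := by gcongr; exact Finset.card_le_two

theorem nsav_update {V : Type} {c Q : ℕ} (G : SimpleGraph V) (L : V → Finset (Fin c))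
    (ω : V → Fin c × Fin (Q + 1)) (v i : V) (l : Fin c × Fin (Q + 1)) :
    |(nsav G L (Function.update ω i l) v : ℝ) - nsav G L ω v| ≤ 2 := by
  have h1 : nsav G L (Function.update ω i l) v ≤ nsav G L ω v + 2 :=
    card_le_of_pair _ _ l.1 (ω i).1 fun α h1 h2 => sav_update G L ω v i l α h1 h2
  have h2 : nsav G L ω v ≤ nsav G L (Function.update ω i l) v + 2 :=
    card_le_of_pair _ _ l.1 (ω i).1 fun α h1 h2 => (sav_update G L ω v i l α h1 h2).symm
  have h1' : (nsav G L (Function.update ω i l) v : ℝ) ≤ nsav G L ω v + 2 := by exact_mod_cast h1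
  have h2' : (nsav G L ω v : ℝ) ≤ nsav G L (Function.update ω i l) v + 2 := by exact_mod_cast h2
  rw [abs_le]
  constructor <;> linarith

theorem mg_update_of_adj {V X : Type} (G : SimpleGraph V) (v i : V) (hi : G.Adj v i)
    (ω ω₀ : V → X) (l : X) :
    mg G v (Function.update ω i l) ω₀ = Function.update (mg G v ω ω₀) i l := by
  funext z
  unfold mg
  by_cases hz : z = i
  · subst hz
    simp [hi]
  · simp [Function.update_of_ne hz]

theorem mg_update_of_not_adj {V X : Type} (G : SimpleGraph V) (v i : V) (hi : ¬ G.Adj v i)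
    (ω ω₀ : V → X) (l : X) :
    mg G v (Function.update ω i l) ω₀ = mg G v ω ω₀ := by
  funext z
  unfold mg
  by_cases hz : z = i
  · subst hz
    simp [hi]
  · simp [Function.update_of_ne hz]

/-- the number of activated vertices of a set -/
noncomputable def act {V : Type} {c Q : ℕ} (S : Finset V) (ω : V → Fin c × Fin (Q + 1)) : ℝ :=
  ∑ z ∈ S, if (ω z).2 = 0 then (1 : ℝ) else 0

theorem act_update {V : Type} {c Q : ℕ} (S : Finset V) (ω : V → Fin c × Fin (Q + 1))
    (i : V) (l : Fin c × Fin (Q + 1)) :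
    |act S (Function.update ω i l) - act S ω| ≤ if i ∈ S then 1 else 0 := by
  unfold act
  rw [← Finset.sum_sub_distrib]
  have h : ∀ z ∈ S, ((if (Function.update ω i l z).2 = 0 then (1 : ℝ) else 0)
      - (if (ω z).2 = 0 then (1 : ℝ) else 0))
      = if z = i then ((if l.2 = 0 then (1 : ℝ) else 0) - (if (ω i).2 = 0 then (1 : ℝ) else 0))
        else 0 := by
    intro z _
    by_cases hz : z = i
    · subst hz; simp
    · simp [hz]
  rw [Finset.sum_congr rfl h, Finset.sum_ite_eq']
  split_ifs <;> simp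

theorem act_mean {V : Type} [Fintype V] {c Q : ℕ} (hc : 0 < c) (S : Finset V) :
    (∑ ω : V → Fin c × Fin (Q + 1), act S ω) / (Fintype.card (V → Fin c × Fin (Q + 1)) : ℝ)
      = S.card / ((Q : ℝ) + 1) := by
  have : NeZero c := ⟨hc.ne'⟩
  have h : ∀ z : V, (∑ ω : V → Fin c × Fin (Q + 1), if (ω z).2 = 0 then (1 : ℝ) else 0)
      / (Fintype.card (V → Fin c × Fin (Q + 1)) : ℝ) = 1 / ((Q : ℝ) + 1) := by
    intro z
    rw [← Pr_zero (c := c) (Q := Q) hc,
      ← Pr_coord z (fun x : Fin c × Fin (Q + 1) => x.2 = 0), Pr_eq_sum]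
  unfold act
  rw [Finset.sum_comm, Finset.sum_div, Finset.sum_congr rfl fun z _ => h z]
  rw [Finset.sum_const, nsmul_eq_mul]
  ring

/-! ## The main statement -/

theorem stmtConc (hMcD : StmtMcD) (hMean : StmtMean) : StmtConc := by
  intro θ hθ hθ1
  set Q : ℕ := ⌈48 / θ⌉₊ with hQ
  have hQ48 : 48 ≤ θ * ((Q : ℝ) + 1) := by
    have h1 : 48 / θ ≤ Q := Nat.le_ceil _
    rw [div_le_iff₀ hθ] at h1
    nlinarith
  set s : ℝ := θ ^ 2 / (64 * ((Q : ℝ) + 1) ^ 2) with hs
  have hspos : 0 < s := by positivity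
  obtain ⟨M₀, hM₀1, hM₀⟩ := exists_M0 (a := θ ^ 2 / 1536) (b := s ^ 2 / 24) (by positivity)
    (by positivity)
  refine ⟨Q, s, M₀, hspos, ?_⟩
  intro M hM c hc V _ G L hdeg v hrich
  have hM1 : 1 ≤ M := hM₀1.trans hM
  have hMpos : (0 : ℝ) < M := by exact_mod_cast hM1
  refine le_trans ?_ (hM₀ M hM)
  rcases Nat.eq_zero_or_pos c with rfl | hcpos
  · have hE : IsEmpty (V → Fin 0 × Fin (Q + 1)) := ⟨fun ω => (ω v).1.elim0⟩
    rw [Pr_eq_card]
    have : (Finset.univ.filter (fun ω : V → Fin 0 × Fin (Q + 1) =>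
        (nsav G L ω v : ℝ) < s * M)).card = 0 := by
      rw [Finset.card_eq_zero]
      exact Finset.eq_empty_of_isEmpty _
    rw [this]
    simp only [Nat.cast_zero, zero_div]
    positivity
  have : NeZero c := ⟨hcpos.ne'⟩
  set Good : (V → Fin c × Fin (Q + 1)) → Prop := fun ω₀ => ∀ u, G.Adj v u →
    ((Finset.univ.filter (fun z => G.Adj u z ∧ ¬ G.Adj v z ∧ (ω₀ z).2 = 0)).card : ℝ)
      ≤ θ * M / 8 with hGood
  -- bad outside configurations
  have hbad : Pr (fun ω₀ => ¬ Good ω₀) ≤ 3 * (M : ℝ) * Real.exp (-(θ ^ 2 / 1536 * M)) := by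
    have h1 : ∀ u : V, Pr (fun ω₀ : V → Fin c × Fin (Q + 1) => ¬
        ((Finset.univ.filter (fun z => G.Adj u z ∧ ¬ G.Adj v z ∧ (ω₀ z).2 = 0)).card : ℝ)
          ≤ θ * M / 8) ≤ Real.exp (-(θ ^ 2 / 1536 * M)) := by
      intro u
      set S : Finset V := Finset.univ.filter (fun z => G.Adj u z ∧ ¬ G.Adj v z) with hS
      have hSc : S.card ≤ 3 * M := by
        refine le_trans (Finset.card_le_card ?_) (hdeg u)
        intro z hz
        simp only [hS, Finset.mem_filter, Finset.mem_univ, true_and] at hz ⊢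
        exact hz.1
      have hcard : ∀ ω₀ : V → Fin c × Fin (Q + 1),
          ((Finset.univ.filter (fun z => G.Adj u z ∧ ¬ G.Adj v z ∧ (ω₀ z).2 = 0)).card : ℝ)
            = act S ω₀ := by
        intro ω₀
        unfold act
        rw [Finset.sum_boole, hS, Finset.filter_filter]
        simp only [and_assoc]
      have h2 := hMcD S (fun ω : V → Fin c × Fin (Q + 1) => - act S ω) 1 (3 * M) one_pos
        (by omega) hSc (by
          intro ω i l
          have := act_update S ω i l
          rw [abs_sub_comm] at this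
          convert this using 2
          ring) (θ * M / 16) (by positivity)
      have h3 : (∑ ω : V → Fin c × Fin (Q + 1), - act S ω)
          / (Fintype.card (V → Fin c × Fin (Q + 1)) : ℝ) = - (S.card / ((Q : ℝ) + 1)) := by
        rw [← act_mean (Q := Q) hcpos S, Finset.sum_neg_distrib, neg_div]
      rw [h3] at h2
      have h4 : (S.card : ℝ) / ((Q : ℝ) + 1) ≤ θ * M / 16 := by
        rw [div_le_iff₀ (by positivity)]
        have h5 : (S.card : ℝ) ≤ 3 * M := by exact_mod_cast hSc
        nlinarith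
      refine (Pr_mono ?_).trans (h2.trans (le_of_eq ?_))
      · intro ω hω
        rw [hcard, not_le] at hω
        linarith
      · congr 1
        push_cast
        field_simp
        ring
    have h2 : Pr (fun ω₀ => ¬ Good ω₀) ≤ Pr (fun ω₀ : V → Fin c × Fin (Q + 1) =>
        ∃ u ∈ Finset.univ.filter (fun w => G.Adj v w), ¬
        ((Finset.univ.filter (fun z => G.Adj u z ∧ ¬ G.Adj v z ∧ (ω₀ z).2 = 0)).card : ℝ)
          ≤ θ * M / 8) := by
      apply Pr_mono
      intro ω hω
      simp only [hGood, not_forall] at hω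
      obtain ⟨u, hu, h⟩ := hω
      exact ⟨u, by simpa using hu, h⟩
    refine h2.trans ((Pr_exists_le _ _).trans ?_)
    refine (Finset.sum_le_sum fun u _ => h1 u).trans ?_
    rw [Finset.sum_const, nsmul_eq_mul]
    apply mul_le_mul_of_nonneg_right _ (Real.exp_pos _).le
    exact_mod_cast hdeg v
  -- good outside configurations
  have hgood : ∀ ω₀ : V → Fin c × Fin (Q + 1), Pr (fun ω : V → Fin c × Fin (Q + 1) =>
      Good ω₀ ∧ (nsav G L (mg G v ω ω₀) v : ℝ) < s * M) ≤ Real.exp (-(s ^ 2 / 24 * M)) := by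
    intro ω₀
    by_cases hg : Good ω₀
    · have h2 := hMcD (Finset.univ.filter (fun w => G.Adj v w))
        (fun ω : V → Fin c × Fin (Q + 1) => (nsav G L (mg G v ω ω₀) v : ℝ)) 2 (3 * M) two_pos
        (by omega) (hdeg v) (by
          intro ω i l
          by_cases hi : G.Adj v i
          · rw [mg_update_of_adj G v i hi]
            have := nsav_update G L (mg G v ω ω₀) v i l
            simpa [hi] using this
          · rw [mg_update_of_not_adj G v i hi]
            simp [hi]) (s * M) (by positivity)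
      have h3 := hMean θ Q M c hθ hθ1 hQ48 hM1 hc V G L hdeg v hrich ω₀ hg
      refine (Pr_mono ?_).trans (h2.trans (le_of_eq ?_))
      · rintro ω ⟨_, hω⟩
        refine hω.le.trans ?_
        have h4 : θ ^ 2 / (32 * ((Q : ℝ) + 1) ^ 2) * M = s * M + s * M := by
          rw [hs]
          field_simp
          ring
        linarith
      · congr 1
        push_cast
        field_simp
        ring
    · have : Pr (fun ω : V → Fin c × Fin (Q + 1) =>
          Good ω₀ ∧ (nsav G L (mg G v ω ω₀) v : ℝ) < s * M)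
          = Pr (fun _ : V → Fin c × Fin (Q + 1) => False) :=
        Pr_congr fun ω => by simp [hg]
      rw [this, Pr_false]
      exact (Real.exp_pos _).le
  rw [Pr_merge G v]
  have hsplit : Pr (fun z : (V → Fin c × Fin (Q + 1)) × (V → Fin c × Fin (Q + 1)) =>
      (nsav G L (mg G v z.2 z.1) v : ℝ) < s * M)
      ≤ Pr (fun z : (V → Fin c × Fin (Q + 1)) × (V → Fin c × Fin (Q + 1)) => ¬ Good z.1)
        + Pr (fun z : (V → Fin c × Fin (Q + 1)) × (V → Fin c × Fin (Q + 1)) =>
          Good z.1 ∧ (nsav G L (mg G v z.2 z.1) v : ℝ) < s * M) := by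
    refine (Pr_mono ?_).trans (Pr_or_le _ _)
    intro z hz
    by_cases hg : Good z.1
    · exact Or.inr ⟨hg, hz⟩
    · exact Or.inl hg
  refine hsplit.trans (add_le_add ?_ ?_)
  · rw [Pr_fst (β := V → Fin c × Fin (Q + 1)) (fun ω₀ => ¬ Good ω₀)]
    exact hbad
  · exact Pr_le_of_forall (fun ω₀ ω : V → Fin c × Fin (Q + 1) =>
      Good ω₀ ∧ (nsav G L (mg G v ω ω₀) v : ℝ) < s * M) _ hgood (Real.exp_pos _).le

end Pool.Agent.Helper77.KS2
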